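import Pool.Agent.Helper44.ML.Tate
import Pool.Agent.Helper88.M.W2b

/-! The matrix representation on the Tate module and its fixed points. -/

namespace Pool.Agent.Helper44.ML

open Finset

variable {ℓ : ℕ} [hl : Fact ℓ.Prime]

section

variable {G : Type*} [Group G] {P : Type*} [AddCommGroup P] [DistribMulAction G P]
  {n : ℕ} {e : ℕ → Fin n → P}

theorem Coord.exists_mat (h : Coord ℓ P n e) (g : G) : ∃ A : Matrix (Fin n) (Fin n) ℤ_[ℓ],
    ∀ m j, ∃ a : Fin n → ℤ, (∀ i, (ℓ : ℤ_[ℓ]) ^ (m + 1) ∣ A i j - a i) ∧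
      g • e m j = ∑ i, a i • e m i := by
  have h1 : ∀ j, ∃ α : Fin n → ℤ_[ℓ], ∀ m, ∃ a : Fin n → ℤ,
      (∀ i, (ℓ : ℤ_[ℓ]) ^ (m + 1) ∣ α i - a i) ∧ g • e m j = ∑ i, a i • e m i := by
    intro j
    apply h.exists_alpha (fun m => g • e m j)
    · rw [smul_comm, h.zero, smul_zero]
    · intro m
      rw [smul_comm, h.step]
  choose α hα using h1
  exact ⟨fun i j => α j i, fun m j => hα j m⟩

/-- the matrix of `g` -/
noncomputable def Coord.mat (h : Coord ℓ P n e) (g : G) : Matrix (Fin n) (Fin n) ℤ_[ℓ] :=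
  (h.exists_mat g).choose

theorem Coord.mat_spec (h : Coord ℓ P n e) (g : G) (m : ℕ) (j : Fin n) :
    ∃ a : Fin n → ℤ, (∀ i, (ℓ : ℤ_[ℓ]) ^ (m + 1) ∣ h.mat g i j - a i) ∧
      g • e m j = ∑ i, a i • e m i :=
  (h.exists_mat g).choose_spec m j

/-- uniqueness modulo powers -/
theorem Coord.unique (h : Coord ℓ P n e) {m : ℕ} {x : P} {α β : Fin n → ℤ_[ℓ]} {a b : Fin n → ℤ}
    (ha : ∀ i, (ℓ : ℤ_[ℓ]) ^ (m + 1) ∣ α i - a i) (hx : x = ∑ i, a i • e m i)
    (hb : ∀ i, (ℓ : ℤ_[ℓ]) ^ (m + 1) ∣ β i - b i) (hx' : x = ∑ i, b i • e m i) (i : Fin n) :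
    (ℓ : ℤ_[ℓ]) ^ (m + 1) ∣ α i - β i := by
  have h1 := h.congr_of_eq m a b (hx ▸ hx') i
  have h2 : (ℓ : ℤ_[ℓ]) ^ (m + 1) ∣ ((a i - b i : ℤ) : ℤ_[ℓ]) := dvd_cast.2 h1
  have h3 : α i - β i = (α i - a i) - (β i - b i) + ((a i - b i : ℤ) : ℤ_[ℓ]) := by
    push_cast
    ring
  rw [h3]
  exact dvd_add (dvd_sub (ha i) (hb i)) h2

theorem Coord.mat_one (h : Coord ℓ P n e) : h.mat (1 : G) = 1 := by
  ext i j
  apply padic_ext
  intro m
  obtain ⟨a, ha, ha2⟩ := h.mat_spec (1 : G) m j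
  have h1 : (1 : G) • e m j = ∑ i, (if i = j then (1 : ℤ) else 0) • e m i := by
    rw [one_smul]
    simp
  refine h.unique (α := fun i => h.mat (1 : G) i j) (β := fun i => (1 : Matrix _ _ ℤ_[ℓ]) i j)
    ha ha2 (b := fun i => if i = j then (1 : ℤ) else 0) ?_ h1 i
  intro i
  rw [Matrix.one_apply]
  split_ifs <;> simp

theorem Coord.mat_mul (h : Coord ℓ P n e) (g g' : G) : h.mat (g * g') = h.mat g * h.mat g' := by
  ext i j
  apply padic_ext
  intro m
  obtain ⟨a, ha, ha2⟩ := h.mat_spec (g * g') m j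
  obtain ⟨b, hb, hb2⟩ := h.mat_spec g' m j
  have h0 := fun l => h.mat_spec g m l
  choose c hc hc2 using h0
  have h1 : (g * g') • e m j = ∑ i, (∑ l, b l * c l i) • e m i := by
    rw [mul_smul, hb2, Finset.smul_sum]
    have h2 : ∀ l, g • (b l • e m l) = ∑ i, (b l * c l i) • e m i := by
      intro l
      rw [smul_comm, hc2, Finset.smul_sum]
      refine Finset.sum_congr rfl fun i _ => ?_
      rw [mul_smul]
    rw [Finset.sum_congr rfl (fun l _ => h2 l), Finset.sum_comm]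
    refine Finset.sum_congr rfl fun i _ => ?_
    rw [Finset.sum_smul]
  refine h.unique (α := fun i => h.mat (g * g') i j) (β := fun i => (h.mat g * h.mat g') i j)
    ha ha2 (b := fun i => ∑ l, b l * c l i) ?_ h1 i
  intro i
  rw [Matrix.mul_apply]
  push_cast
  rw [← Finset.sum_sub_distrib]
  apply Finset.dvd_sum
  intro l _
  have h3 : h.mat g i l * h.mat g' l j - (b l : ℤ_[ℓ]) * (c l i : ℤ_[ℓ]) =
      (h.mat g i l - c l i) * h.mat g' l j + c l i * (h.mat g' l j - b l) := by ring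
  rw [h3]
  exact dvd_add (Dvd.dvd.mul_right (hc l i) _) (Dvd.dvd.mul_left (hb l) _)

/-- the representation -/
noncomputable def Coord.rep (h : Coord ℓ P n e) : G →* Matrix (Fin n) (Fin n) ℤ_[ℓ] where
  toFun := h.mat
  map_one' := h.mat_one
  map_mul' := h.mat_mul

/-- the action on integer combinations -/
theorem Coord.smul_comb (h : Coord ℓ P n e) (g : G) (m : ℕ) (c : Fin n → ℤ) :
    ∃ b : Fin n → ℤ, (∀ i, (ℓ : ℤ_[ℓ]) ^ (m + 1) ∣ (∑ j, h.mat g i j * (c j : ℤ_[ℓ])) - b i) ∧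
      g • (∑ j, c j • e m j) = ∑ i, b i • e m i := by
  have h0 := fun l => h.mat_spec g m l
  choose a ha ha2 using h0
  refine ⟨fun i => ∑ j, c j * a j i, ?_, ?_⟩
  · intro i
    push_cast
    rw [← Finset.sum_sub_distrib]
    apply Finset.dvd_sum
    intro l _
    have h3 : h.mat g i l * (c l : ℤ_[ℓ]) - (c l : ℤ_[ℓ]) * (a l i : ℤ_[ℓ]) =
        (h.mat g i l - a l i) * c l := by ring
    rw [h3]
    exact Dvd.dvd.mul_right (ha l i) _
  · rw [Finset.smul_sum]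
    have h2 : ∀ l, g • (c l • e m l) = ∑ i, (c l * a l i) • e m i := by
      intro l
      rw [smul_comm, ha2, Finset.smul_sum]
      refine Finset.sum_congr rfl fun i _ => ?_
      rw [mul_smul]
    rw [Finset.sum_congr rfl (fun l _ => h2 l), Finset.sum_comm]
    refine Finset.sum_congr rfl fun i _ => ?_
    rw [Finset.sum_smul]

/-- if the determinant is not zero the fixed points have bounded order -/
theorem Coord.bounded (h : Coord ℓ P n e) (htor : ∀ x : P, ∃ m : ℕ, ℓ ^ m • x = 0) (g : G)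
    (hdet : (h.mat g - 1).det ≠ 0) : ∃ t : ℕ, ∀ p : P, g • p = p → ℓ ^ t • p = 0 := by
  refine ⟨(h.mat g - 1).det.valuation, fun p hp => ?_⟩
  set d := (h.mat g - 1).det with hd
  obtain ⟨m, hm⟩ := htor p
  have hm' : ℓ ^ (m + 1) • p = 0 := by
    rw [pow_succ', mul_smul, hm, smul_zero]
  obtain ⟨c, hc⟩ := h.span m p hm'
  obtain ⟨b, hb, hb2⟩ := h.smul_comb g m c
  rw [← hc, hp, hc] at hb2
  have h1 := h.congr_of_eq m c b hb2
  have h2 : ∀ i, (ℓ : ℤ_[ℓ]) ^ (m + 1) ∣ ((h.mat g - 1).mulVec (fun j => (c j : ℤ_[ℓ]))) i := by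
    intro i
    have h3 : ((h.mat g - 1).mulVec (fun j => (c j : ℤ_[ℓ]))) i =
        ((∑ j, h.mat g i j * (c j : ℤ_[ℓ])) - b i) - ((c i - b i : ℤ) : ℤ_[ℓ]) := by
      rw [Matrix.sub_mulVec, Matrix.one_mulVec, Pi.sub_apply, Matrix.mulVec, dotProduct]
      push_cast
      ring
    rw [h3]
    exact dvd_sub (hb i) (dvd_cast.2 (h1 i))
  have h4 : ∀ i, (ℓ : ℤ_[ℓ]) ^ (m + 1) ∣ d * (c i : ℤ_[ℓ]) := by
    intro i
    have h5 : ((h.mat g - 1).adjugate.mulVec ((h.mat g - 1).mulVec (fun j => (c j : ℤ_[ℓ])))) i =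
        d * (c i : ℤ_[ℓ]) := by
      rw [Matrix.mulVec_mulVec, Matrix.adjugate_mul, Matrix.smul_mulVec, Matrix.one_mulVec,
        Pi.smul_apply, smul_eq_mul]
    rw [← h5, Matrix.mulVec, dotProduct]
    apply Finset.dvd_sum
    intro j _
    exact Dvd.dvd.mul_left (h2 j) _
  have h6 : d = (PadicInt.unitCoeff hdet : ℤ_[ℓ]) * (ℓ : ℤ_[ℓ]) ^ d.valuation := by
    have := PadicInt.unitCoeff_spec hdet
    exact_mod_cast this
  have h7 : ∀ i, (ℓ : ℤ) ^ (m + 1) ∣ (ℓ : ℤ) ^ d.valuation * c i := by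
    intro i
    have h8 := h4 i
    rw [h6, mul_assoc] at h8
    have h9 : (ℓ : ℤ_[ℓ]) ^ (m + 1) ∣ (ℓ : ℤ_[ℓ]) ^ d.valuation * (c i : ℤ_[ℓ]) :=
      (Units.dvd_mul_left).1 h8
    rw [← dvd_cast]
    push_cast
    exact h9
  rw [hc, Finset.smul_sum]
  have h10 : ∀ i, ℓ ^ d.valuation • (c i • e m i) = ((ℓ : ℤ) ^ d.valuation * c i) • e m i := by
    intro i
    rw [mul_smul, pow_zsmul_cast]
  rw [Finset.sum_congr rfl (fun i _ => h10 i)]
  exact (h.ind m _).2 h7

/-- if the determinant is zero there are infinitely many fixed points -/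
theorem Coord.infinite (h : Coord ℓ P n e) (htor : ∀ x : P, ∃ m : ℕ, ℓ ^ m • x = 0) (g : G)
    (hdet : (h.mat g - 1).det = 0) : ¬ {p : P | g • p = p}.Finite := by
  intro hfin
  -- bounded order
  obtain ⟨M, hM⟩ : ∃ M : ℕ, ∀ p ∈ {p : P | g • p = p}, ℓ ^ M • p = 0 := by
    choose mm hmm using htor
    refine ⟨hfin.toFinset.sup mm, fun p hp => ?_⟩
    have h1 : mm p ≤ hfin.toFinset.sup mm := Finset.le_sup (hfin.mem_toFinset.2 hp)
    obtain ⟨k, hk⟩ := Nat.exists_eq_add_of_le h1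
    rw [hk, pow_add, mul_comm, mul_smul, hmm, smul_zero]
  obtain ⟨v, hv0, hv⟩ := Matrix.exists_mulVec_eq_zero_iff.2 hdet
  apply hv0
  ext i
  -- the coordinates are divisible by all powers
  have key : ∀ m : ℕ, (ℓ : ℤ_[ℓ]) ^ (m + 1) ∣ (ℓ : ℤ_[ℓ]) ^ M * v i := by
    intro m
    have h1 := fun j => exists_int (v j) (m + 1)
    choose c hc using h1
    set p : P := ∑ j, c j • e m j with hp
    obtain ⟨b, hb, hb2⟩ := h.smul_comb g m c
    have hfix : g • p = p := by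
      rw [hp, hb2]
      apply h.eq_of_congr
      intro j
      rw [← dvd_cast]
      have h2 : (∑ l, h.mat g j l * v l) = v j := by
        have h3 := congrFun hv j
        rw [Matrix.sub_mulVec, Matrix.one_mulVec, Pi.sub_apply, Matrix.mulVec, dotProduct,
          Pi.zero_apply, sub_eq_zero] at h3
        exact h3
      have h4 : ((b j - c j : ℤ) : ℤ_[ℓ]) =
          (∑ l, h.mat g j l * (v l - c l)) * (-1) + (v j - c j) -
            ((∑ l, h.mat g j l * (c l : ℤ_[ℓ])) - b j) := by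
        simp only [mul_sub, Finset.sum_sub_distrib, h2]
        push_cast
        ring
      rw [h4]
      apply dvd_sub _ (hb j)
      apply dvd_add _ (hc j)
      apply Dvd.dvd.mul_right
      apply Finset.dvd_sum
      intro l _
      exact Dvd.dvd.mul_left (hc l) _
    have h5 := hM p hfix
    have h6 : ∑ j, ((ℓ : ℤ) ^ M * c j) • e m j = 0 := by
      rw [← h5, hp, Finset.smul_sum]
      refine Finset.sum_congr rfl fun j _ => ?_
      rw [mul_smul, pow_zsmul_cast]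
    have h7 := (h.ind m _).1 h6 i
    rw [← dvd_cast] at h7
    push_cast at h7
    have h8 : (ℓ : ℤ_[ℓ]) ^ M * v i = (ℓ : ℤ_[ℓ]) ^ M * (v i - c i) + (ℓ : ℤ_[ℓ]) ^ M * c i := by ring
    rw [h8]
    exact dvd_add (Dvd.dvd.mul_left (hc i) _) h7
  have h9 : (ℓ : ℤ_[ℓ]) ^ M * v i = 0 := by
    apply padic_zero
    intro m
    exact (pow_dvd_pow _ (Nat.le_succ m)).trans (key m)
  have h10 : (ℓ : ℤ_[ℓ]) ^ M ≠ 0 := by
    apply pow_ne_zero
    rw [Nat.cast_ne_zero]
    exact hl.out.ne_zero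
  exact (mul_eq_zero.1 h9).resolve_left h10

end

section top

variable {G : Type*} [Group G] [TopologicalSpace G] [IsTopologicalGroup G]
  {P : Type*} [AddCommGroup P] [DistribMulAction G P] {n : ℕ} {e : ℕ → Fin n → P}

theorem Coord.continuous_rep (h : Coord ℓ P n e) (hopen : ∀ x : P, IsOpen {g : G | g • x = x}) :
    Continuous (h.rep : G →* Matrix (Fin n) (Fin n) ℤ_[ℓ]) := by
  apply continuous_matrix
  intro i j
  rw [continuous_iff_continuousAt]
  intro g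
  rw [ContinuousAt, Metric.tendsto_nhds]
  intro ε hε
  obtain ⟨m, hm⟩ := exists_pow_lt_of_lt_one hε (show (1 / 2 : ℝ) < 1 by norm_num)
  have h1 : IsOpen {g' : G | (g⁻¹ * g') • e m j = e m j} :=
    (hopen (e m j)).preimage (continuous_const_mul g⁻¹)
  filter_upwards [h1.mem_nhds (by simp)] with g' hg'
  have h2 : g' • e m j = g • e m j := by
    have h3 : (g⁻¹ * g') • e m j = e m j := hg'
    rw [mul_smul, inv_smul_eq_iff] at h3
    exact h3
  obtain ⟨a, ha, ha2⟩ := h.mat_spec g' m j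
  obtain ⟨b, hb, hb2⟩ := h.mat_spec g m j
  have h4 := h.unique (α := fun i => h.mat g' i j) (β := fun i => h.mat g i j) ha (h2 ▸ ha2)
    hb hb2 i
  rw [dist_eq_norm]
  have h5 : ‖h.mat g' i j - h.mat g i j‖ ≤ (ℓ : ℝ) ^ (-((m + 1 : ℕ) : ℤ)) := by
    rw [PadicInt.norm_le_pow_iff_mem_span_pow, Ideal.mem_span_singleton]
    exact_mod_cast h4
  refine lt_of_le_of_lt h5 (lt_of_le_of_lt ?_ hm)
  have hl2 : (2 : ℝ) ≤ ℓ := by exact_mod_cast hl.out.two_le
  rw [zpow_neg, zpow_natCast, one_div, inv_pow]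
  apply inv_anti₀ (by positivity)
  exact (pow_le_pow_left₀ (by norm_num) hl2 m).trans
    (pow_le_pow_right₀ (by linarith) (Nat.le_succ m))

end top

/-- the polynomial `det(X - 1)` -/
noncomputable def detPoly (n : ℕ) : MvPolynomial (Fin n × Fin n) ℤ_[ℓ] :=
  (Matrix.of (fun i j : Fin n => (MvPolynomial.X (i, j) : MvPolynomial (Fin n × Fin n) ℤ_[ℓ])) - 1).det

theorem eval_detPoly (n : ℕ) (A : Matrix (Fin n) (Fin n) ℤ_[ℓ]) :
    MvPolynomial.eval (fun p => A p.1 p.2) (detPoly n) = (A - 1).det := by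
  unfold detPoly
  rw [RingHom.map_det]
  congr 1
  ext i j
  simp [Matrix.sub_apply, Matrix.one_apply]

end Pool.Agent.Helper44.ML
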