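import Mathlib

/-! Coordinates on a divisible `l`-power torsion group with finite `l`-torsion (the version for a
prime `l` of Helper88/M/Tate.lean). -/

namespace Pool.Agent.Helper44.ML

open Finset

variable {l : ℕ} [hl : Fact l.Prime]

include hl

/-- an element divisible by all powers of `l` is zero -/
theorem padic_zero (x : ℤ_[l]) (h : ∀ m : ℕ, (l : ℤ_[l]) ^ m ∣ x) : x = 0 := by
  by_contra hx
  have h1 := h (x.valuation + 1)
  have h2 : x ∈ (Ideal.span {(l : ℤ_[l]) ^ (x.valuation + 1)} : Ideal ℤ_[l]) := by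
    rw [Ideal.mem_span_singleton]
    exact h1
  rw [PadicInt.mem_span_pow_iff_le_valuation x hx] at h2
  omega

theorem padic_ext (x y : ℤ_[l]) (h : ∀ m : ℕ, (l : ℤ_[l]) ^ (m + 1) ∣ x - y) : x = y := by
  rw [← sub_eq_zero]
  apply padic_zero
  intro m
  exact (pow_dvd_pow _ (Nat.le_succ m)).trans (h m)

/-- limits of compatible sequences -/
theorem padic_lim (z : ℕ → ℤ) (h : ∀ m, (l : ℤ) ^ (m + 1) ∣ z (m + 1) - z m) :
    ∃ α : ℤ_[l], ∀ m, (l : ℤ_[l]) ^ (m + 1) ∣ α - z m := by
  have hl2 : (2 : ℝ) ≤ l := by exact_mod_cast hl.out.two_le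
  have hz : ∀ m, (l : ℤ_[l]) ^ (m + 1) ∣ ((z (m + 1) : ℤ) : ℤ_[l]) - z m := by
    intro m
    have h1 : (l : ℤ_[l]) ^ (m + 1) ∣ ((z (m + 1) - z m : ℤ) : ℤ_[l]) := by
      rw [PadicInt.pow_p_dvd_int_iff]
      exact_mod_cast h m
    push_cast at h1
    exact h1
  have hn : ∀ m (x : ℤ_[l]), (l : ℤ_[l]) ^ m ∣ x → ‖x‖ ≤ (1 / 2) ^ m := by
    intro m x hx
    have h1 : ‖x‖ ≤ (l : ℝ) ^ (-(m : ℤ)) := by
      rw [PadicInt.norm_le_pow_iff_mem_span_pow, Ideal.mem_span_singleton]
      exact hx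
    refine h1.trans ?_
    rw [zpow_neg, zpow_natCast, ← inv_pow, one_div]
    exact pow_le_pow_left₀ (by positivity) (inv_anti₀ (by norm_num) hl2) m
  have hd : ∀ m, dist ((z m : ℤ) : ℤ_[l]) ((z (m + 1) : ℤ) : ℤ_[l]) ≤ (1 / 2) * (1 / 2) ^ m := by
    intro m
    rw [dist_comm, dist_eq_norm]
    refine (hn (m + 1) _ (hz m)).trans (le_of_eq ?_)
    ring
  have hc : CauchySeq (fun m => ((z m : ℤ) : ℤ_[l])) :=
    cauchySeq_of_le_geometric (1 / 2) (1 / 2) (by norm_num) hd
  obtain ⟨α, hα⟩ := cauchySeq_tendsto_of_complete hc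
  -- the differences of the sequence to its later members
  have hz2 : ∀ m k, (l : ℤ_[l]) ^ (m + 1) ∣ ((z (m + k) : ℤ) : ℤ_[l]) - z m := by
    intro m k
    induction k with
    | zero => rw [add_zero, sub_self]; exact dvd_zero _
    | succ k ih =>
      have h1 : ((z (m + (k + 1)) : ℤ) : ℤ_[l]) - z m =
          (((z (m + k + 1) : ℤ) : ℤ_[l]) - z (m + k)) + (((z (m + k) : ℤ) : ℤ_[l]) - z m) := by
        rw [← add_assoc]
        ring
      rw [h1]
      exact dvd_add ((pow_dvd_pow _ (by omega)).trans (hz (m + k))) ih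
  refine ⟨α, fun m => ?_⟩
  have h5 : ‖α - z m‖ ≤ (l : ℝ) ^ (-((m + 1 : ℕ) : ℤ)) := by
    have h6 : Filter.Tendsto (fun k => ‖((z (m + k) : ℤ) : ℤ_[l]) - z m‖) Filter.atTop
        (nhds ‖α - z m‖) := by
      have h7 : Filter.Tendsto (fun k => ((z (m + k) : ℤ) : ℤ_[l])) Filter.atTop (nhds α) := by
        have := (Filter.tendsto_add_atTop_iff_nat m).2 hα
        simpa only [add_comm] using this
      exact (h7.sub_const _).norm
    refine le_of_tendsto h6 (Filter.Eventually.of_forall fun k => ?_)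
    rw [PadicInt.norm_le_pow_iff_mem_span_pow, Ideal.mem_span_singleton]
    exact hz2 m k
  rw [PadicInt.norm_le_pow_iff_mem_span_pow, Ideal.mem_span_singleton] at h5
  exact h5

theorem dvd_cast {n : ℕ} {a : ℤ} : (l : ℤ_[l]) ^ n ∣ (a : ℤ_[l]) ↔ (l : ℤ) ^ n ∣ a := by
  have := PadicInt.pow_p_dvd_int_iff (p := l) n a
  exact_mod_cast this

/-- every `l`-adic number is congruent to an integer -/
theorem exists_int (α : ℤ_[l]) (n : ℕ) : ∃ a : ℤ, (l : ℤ_[l]) ^ n ∣ α - a := by
  refine ⟨(α.appr n : ℕ), ?_⟩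
  have h1 := PadicInt.appr_spec n α
  rw [Ideal.mem_span_singleton] at h1
  push_cast
  exact_mod_cast h1

section

variable {P : Type*} [AddCommGroup P]

/-- finite vector spaces have a basis -/
theorem basis_exists {V : Type*} [AddCommGroup V] [Module (ZMod l) V] (hf : Finite V) :
    ∃ (n : ℕ) (b : Fin n → V), (∀ x : V, ∃ a : Fin n → ℤ, x = ∑ i, a i • b i) ∧
      ∀ a : Fin n → ℤ, ∑ i, a i • b i = 0 → ∀ i, (l : ℤ) ∣ a i := by
  have hmf : Module.Finite (ZMod l) V := Module.Finite.of_finite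
  let b := Module.finBasis (ZMod l) V
  have hsm : ∀ (c : ZMod l) (v : V), c • v = ((c.val : ℕ) : ℤ) • v := by
    intro c v
    rw [natCast_zsmul, ← Nat.cast_smul_eq_nsmul (ZMod l), ZMod.natCast_zmod_val]
  refine ⟨_, fun i => b i, ?_, ?_⟩
  · intro x
    refine ⟨fun i => (((b.repr x i).val : ℕ) : ℤ), ?_⟩
    have h3 := b.sum_repr x
    simp only [hsm] at h3
    exact h3.symm
  · intro a ha i
    have h3 : ∑ i, ((a i : ℤ) : ZMod l) • b i = 0 := by
      simp only [Int.cast_smul_eq_zsmul]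
      exact ha
    have h4 := Fintype.linearIndependent_iff.1 b.linearIndependent _ h3 i
    exact (ZMod.intCast_zmod_eq_zero_iff_dvd (a i) l).1 h4

/-- the `l`-torsion has a basis, abstract form -/
theorem exists_basis_aux {V : Type*} [AddCommGroup V] (hf : Finite V) (h2 : ∀ x : V, l • x = 0) :
    ∃ (n : ℕ) (b : Fin n → V), (∀ x : V, ∃ a : Fin n → ℤ, x = ∑ i, a i • b i) ∧
      ∀ a : Fin n → ℤ, ∑ i, a i • b i = 0 → ∀ i, (l : ℤ) ∣ a i :=
  @basis_exists l hl V _ (AddCommGroup.zmodModule h2) hf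

/-- the `l`-torsion has a basis -/
theorem exists_basis (hfin : {x : P | l • x = 0}.Finite) :
    ∃ (n : ℕ) (e : Fin n → P), (∀ i, l • e i = 0) ∧
      (∀ x : P, l • x = 0 → ∃ a : Fin n → ℤ, x = ∑ i, a i • e i) ∧
      ∀ a : Fin n → ℤ, ∑ i, a i • e i = 0 → ∀ i, (l : ℤ) ∣ a i := by
  classical
  let V : AddSubgroup P := (nsmulAddMonoidHom l : P →+ P).ker
  have hV : ∀ x : P, x ∈ V ↔ l • x = 0 := fun x => Iff.rfl
  have h2 : ∀ x : V, l • x = 0 := fun x => Subtype.ext ((hV x).1 x.2)
  have hf : Finite V := hfin.to_subtype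
  obtain ⟨n, b, h3, h4⟩ := exists_basis_aux hf h2
  refine ⟨n, fun i => (b i : P), fun i => (hV _).1 (b i).2, ?_, ?_⟩
  · intro x hx
    obtain ⟨a, ha⟩ := h3 ⟨x, (hV x).2 hx⟩
    refine ⟨a, ?_⟩
    have h5 := congrArg (fun v : V => (v : P)) ha
    simp only [AddSubgroup.val_finsetSum, AddSubgroup.coe_zsmul] at h5
    exact h5
  · intro a ha
    apply h4
    apply Subtype.ext
    rw [AddSubgroup.val_finsetSum]
    simp only [AddSubgroup.coe_zsmul]
    exact ha

omit hl in
theorem pow_zsmul_cast (l m : ℕ) (x : P) : ((l : ℤ) ^ m) • x = l ^ m • x := by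
  have : ((l : ℤ) ^ m) = ((l ^ m : ℕ) : ℤ) := by push_cast; ring
  rw [this, natCast_zsmul]

omit hl in
/-- coordinates of the Tate module -/
structure Coord (l : ℕ) (P : Type*) [AddCommGroup P] (n : ℕ) (e : ℕ → Fin n → P) : Prop where
  step : ∀ m i, l • e (m + 1) i = e m i
  zero : ∀ i, l • e 0 i = 0
  span : ∀ m (x : P), l ^ (m + 1) • x = 0 → ∃ a : Fin n → ℤ, x = ∑ i, a i • e m i
  ind : ∀ m (a : Fin n → ℤ), ∑ i, a i • e m i = 0 ↔ ∀ i, (l : ℤ) ^ (m + 1) ∣ a i

theorem exists_coord (hdiv : ∀ x : P, ∃ y : P, l • y = x) (hfin : {x : P | l • x = 0}.Finite) :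
    ∃ (n : ℕ) (e : ℕ → Fin n → P), Coord l P n e := by
  classical
  obtain ⟨n, e0, h1, h2, h3⟩ := exists_basis hfin
  choose half hhalf using hdiv
  let e : ℕ → Fin n → P := fun m => Nat.rec e0 (fun _ f i => half (f i)) m
  have he0 : e 0 = e0 := rfl
  have hes : ∀ m i, l • e (m + 1) i = e m i := fun m i => hhalf _
  have hpow : ∀ m i, l ^ m • e m i = e0 i := by
    intro m
    induction m with
    | zero => intro i; rw [pow_zero, one_smul, he0]
    | succ m ih =>
      intro i
      rw [pow_succ, mul_smul, hes, ih]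
  refine ⟨n, e, hes, h1, ?_, ?_⟩
  · intro m
    induction m with
    | zero =>
      intro x hx
      rw [zero_add, pow_one] at hx
      exact h2 x hx
    | succ m ih =>
      intro x hx
      rw [pow_succ, mul_smul] at hx
      obtain ⟨a, ha⟩ := ih (l • x) hx
      have h4 : l • (x - ∑ i, a i • e (m + 1) i) = 0 := by
        rw [smul_sub, ha, Finset.smul_sum, sub_eq_zero]
        refine Finset.sum_congr rfl fun i _ => ?_
        rw [smul_comm, hes]
      obtain ⟨b, hb⟩ := h2 _ h4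
      refine ⟨fun i => a i + (l : ℤ) ^ (m + 1) * b i, ?_⟩
      rw [sub_eq_iff_eq_add] at hb
      rw [hb, ← Finset.sum_add_distrib]
      refine Finset.sum_congr rfl fun i _ => ?_
      rw [add_smul, add_comm, ← hpow (m + 1) i]
      congr 1
      rw [mul_comm, mul_smul]
      congr 1
      rw [pow_zsmul_cast]
  · intro m
    induction m with
    | zero =>
      intro a
      constructor
      · intro h i
        rw [zero_add, pow_one]
        exact h3 a h i
      · intro h
        apply Finset.sum_eq_zero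
        intro i _
        obtain ⟨c, hc⟩ := h i
        rw [zero_add, pow_one] at hc
        rw [hc, mul_comm, mul_smul]
        have h5 : (l : ℤ) • e0 i = 0 := by
          rw [natCast_zsmul, h1]
        rw [he0, h5, smul_zero]
    | succ m ih =>
      intro a
      constructor
      · intro h
        have h4 : ∑ i, a i • e0 i = 0 := by
          have h5 := congrArg (fun x => l ^ (m + 1) • x) h
          simp only [smul_zero, Finset.smul_sum] at h5
          rw [← h5]
          refine Finset.sum_congr rfl fun i _ => ?_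
          rw [smul_comm, hpow]
        have h5 := h3 a h4
        choose b hb using h5
        have h6 : ∑ i, b i • e m i = 0 := by
          rw [← h]
          refine Finset.sum_congr rfl fun i _ => ?_
          rw [hb i, mul_comm, mul_smul]
          congr 1
          rw [natCast_zsmul, hes]
        intro i
        obtain ⟨c, hc⟩ := (ih b).1 h6 i
        refine ⟨c, ?_⟩
        rw [hb i, hc]
        ring
      · intro h
        apply Finset.sum_eq_zero
        intro i _
        obtain ⟨c, hc⟩ := h i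
        rw [hc, mul_comm, mul_smul]
        have h8 : (l ^ (m + 1 + 1) : ℕ) • e (m + 1) i = 0 := by
          rw [pow_succ', mul_smul, hpow, h1]
        rw [pow_zsmul_cast, h8, smul_zero]

namespace Coord

variable {n : ℕ} {e : ℕ → Fin n → P} (h : Coord l P n e)
include h

omit hl in
/-- the relation `x = ∑ α i • e m i` for `l`-adic coefficients -/
theorem eq_of_congr (m : ℕ) (a b : Fin n → ℤ) (hab : ∀ i, (l : ℤ) ^ (m + 1) ∣ a i - b i) :
    ∑ i, a i • e m i = ∑ i, b i • e m i := by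
  rw [← sub_eq_zero, ← Finset.sum_sub_distrib]
  simp only [← sub_smul]
  exact (h.ind m _).2 hab

omit hl in
theorem congr_of_eq (m : ℕ) (a b : Fin n → ℤ) (hab : ∑ i, a i • e m i = ∑ i, b i • e m i) :
    ∀ i, (l : ℤ) ^ (m + 1) ∣ a i - b i := by
  rw [← sub_eq_zero, ← Finset.sum_sub_distrib] at hab
  simp only [← sub_smul] at hab
  exact (h.ind m _).1 hab

/-- elements of the Tate module have `l`-adic coordinates -/
theorem exists_alpha (x : ℕ → P) (h0 : l • x 0 = 0) (hx : ∀ m, l • x (m + 1) = x m) :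
    ∃ α : Fin n → ℤ_[l], ∀ m, ∃ a : Fin n → ℤ, (∀ i, (l : ℤ_[l]) ^ (m + 1) ∣ α i - a i) ∧
      x m = ∑ i, a i • e m i := by
  have hpow : ∀ m, l ^ (m + 1) • x m = 0 := by
    intro m
    induction m with
    | zero => rw [zero_add, pow_one]; exact h0
    | succ m ih => rw [pow_succ, mul_smul, hx, ih]
  have h1 : ∀ m, ∃ a : Fin n → ℤ, x m = ∑ i, a i • e m i := fun m => h.span m _ (hpow m)
  choose a ha using h1
  have h2 : ∀ i m, (l : ℤ) ^ (m + 1) ∣ a (m + 1) i - a m i := by
    intro i m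
    apply h.congr_of_eq m _ _ _ i
    rw [← ha m, ← hx m, ha (m + 1), Finset.smul_sum]
    refine Finset.sum_congr rfl fun i _ => ?_
    rw [smul_comm, h.step]
  have h3 : ∀ i, ∃ α : ℤ_[l], ∀ m, (l : ℤ_[l]) ^ (m + 1) ∣ α - a m i := fun i =>
    padic_lim (fun m => a m i) (h2 i)
  choose α hα using h3
  exact ⟨α, fun m => ⟨a m, fun i => hα i m, ha m⟩⟩

end Coord

end

end Pool.Agent.Helper44.ML
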